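import Pool.Agent.H35.SW.CDefs

/-!
REA: the generic family of subsets of `K`.
-/

set_option linter.unusedVariables false
set_option synthInstance.maxSize 100000

namespace SW

section
variable {M : Type} [SetStr M] [ZF M]

theorem card_nat (hf : FinFacts M) : ∀ n : M, E n om → card n = n := by
  refine om_ind (C := fun n : M => card n = n) inferInstance ?_ ?_
  · exact hf.card_emp
  · intro n hn ih
    have : suc n = ins n n := rfl
    rw [this, hf.card_ins (hf.nat hn) (not_mem_self n), ih]
    rfl

theorem not_fnt_om (hf : FinFacts M) : ¬ Fnt (om : M) := by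
  intro h
  have h1 : E (card (om : M)) om := hf.card_om h
  have h2 : ∀ n : M, E n om → E n (card (om : M)) := by
    intro n hn
    have h3 : E (card n) (card (om : M)) := by
      refine hf.card_lt h (Trans_om n hn) ?_
      rintro rfl
      exact not_mem_self _ hn
    rwa [card_nat hf n hn] at h3
  exact not_mem_self _ (h2 _ h1)

/-- there is a member of `K` outside a given finite set -/
theorem exists_not_mem_fnt (hf : FinFacts M) {K : M} (hK : IsHF K) (hhf : HFFacts K) {x : M}
    (hx : Fnt x) : ∃ m, E m K ∧ ¬ E m x := by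
  by_contra hcon
  push Not at hcon
  exact not_fnt_om hf (hf.sub hx fun n hn => hcon n (hhf.nat hn))

/-- the second component of the argument -/
noncomputable def scd (z : M) : M := the (fun m => ∃ c i : M, z = opair (opair c m) i)

theorem scd_df : Fn1 (fun x : M => scd x) := by unfold scd; infer_instance

instance {n : ℕ} {t : (Fin n → M) → M} [ht : DfT t] : DfT (fun v => scd (t v)) :=
  scd_df.comp1 ht

theorem scd_eq (c m i : M) : scd (opair (opair c m) i) = m := by
  refine the_eq ⟨c, i, rfl⟩ ?_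
  rintro z ⟨c', i', h⟩
  simp only [opair_inj] at h
  exact h.1.2.symm

/-- a fresh second component for a condition -/
theorem exists_fresh (hf : FinFacts M) {K : M} (hK : IsHF K) (hhf : HFFacts K) {p : M}
    (hp : Fnt p) : ∃ m, E m K ∧ ∀ c i, ¬ E (opair (opair c m) i) p := by
  obtain ⟨m, hm, h⟩ := exists_not_mem_fnt hf hK hhf (hf.img (fun z => scd z) scd_df hp)
  refine ⟨m, hm, fun c i hci => h ?_⟩
  rw [mem_img' scd_df]
  exact ⟨_, hci, (scd_eq c m i).symm⟩

theorem ins_mem_cohP (hf : FinFacts M) {K θ p c m i : M} (hp : E p (cohP K θ)) (hc : E c θ)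
    (hm : E m K) (hi : E i (two : M)) (hfresh : ∀ j, ¬ E (opair (opair c m) j) p) :
    E (ins (opair (opair c m) i) p) (cohP K θ) := by
  rw [mem_cohP] at hp ⊢
  obtain ⟨h1, h2, h3⟩ := hp
  refine ⟨?_, hf.ins h2, ?_⟩
  · intro z hz
    rw [mem_ins] at hz
    rcases hz with hz | rfl
    · exact h1 z hz
    · simp only [mem_prod]
      exact ⟨⟨hc, hm⟩, hi⟩
  · intro x j j' hj hj'
    rw [mem_ins] at hj hj'
    rcases hj with hj | hj
    · rcases hj' with hj' | hj'
      · exact h3 x j j' hj hj'
      · rw [opair_inj] at hj'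
        obtain ⟨rfl, rfl⟩ := hj'
        exact absurd hj (hfresh _)
    · rw [opair_inj] at hj
      obtain ⟨rfl, rfl⟩ := hj
      rcases hj' with hj' | hj'
      · exact absurd hj' (hfresh _)
      · rw [opair_inj] at hj'
        exact hj'.2.symm

theorem emp_mem_two : E (emp : M) two := by
  unfold two
  rw [mem_upair]
  exact Or.inl rfl

theorem one_mem_two : E (sing (emp : M)) two := by
  unfold two
  rw [mem_upair]
  exact Or.inr rfl

theorem one_ne_emp : (sing (emp : M)) ≠ emp := by
  intro h
  have : E (emp : M) (sing emp) := by simp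
  rw [h] at this
  exact not_mem_emp _ this

end

/-- REA -/
theorem rea (hemb : EMBStmt) (hhf : HFStmt) (hgm : GMStmt) (htra : TRAStmt) : REAStmt := by
  intro M _ _ hf K θ hK G hG _
  have he := hemb M (Coh hf K θ) G hG
  have ht := htra M (Coh hf K θ) G hG
  have hg := hgm M (Coh hf K θ) G hG
  have hKf := hhf M K hK
  -- the union of the generic filter
  have hU : ∀ x : M, E (emb (Coh hf K θ) G x) (sUn (mk (Coh hf K θ) G (Gnm (Coh hf K θ)))) ↔
      ∃ q, G q ∧ E x q := by
    intro x
    rw [mem_sUn]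
    constructor
    · rintro ⟨y, hy, hxy⟩
      obtain ⟨p, hp, rfl⟩ := (he.G_mem y).1 hy
      exact ⟨p, hp, (he.mem _ _).1 hxy⟩
    · rintro ⟨q, hq, hx⟩
      exact ⟨emb _ G q, (he.G_mem _).2 ⟨q, hq, rfl⟩, (he.mem _ _).2 hx⟩
  have hsing : emb (Coh hf K θ) G (sing emp) = sing emp := by
    have h1 : (sing (emp : M)) = ins emp emp := ext fun w => by
      rw [mem_sing, mem_ins]
      exact ⟨Or.inr, fun h => h.resolve_left (not_mem_emp w)⟩
    rw [h1, ht.ins, ht.emp]
    exact ext fun w => by
      rw [mem_sing, mem_ins]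
      exact ⟨fun h => h.resolve_left (not_mem_emp w), Or.inr⟩
  obtain ⟨R, hR⟩ : ∃ R : Ext (Coh hf K θ) G, ∀ c m : M, E c θ → E m K →
      (E (opair (emb _ G c) (emb _ G m)) R ↔ ∃ q, G q ∧ E (opair (opair c m) (sing emp)) q) := by
    refine ⟨sep (prod (emb _ G θ) (emb _ G K)) (fun z =>
      E (opair z (sing emp)) (sUn (mk (Coh hf K θ) G (Gnm (Coh hf K θ))))), fun c m hc hm => ?_⟩
    rw [mem_sep' inferInstance, mem_prod, he.mem, he.mem, ← hsing, ← ht.opair, ← ht.opair, hU]
    exact ⟨fun h => h.2, fun h => ⟨⟨hc, hm⟩, h⟩⟩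
  refine ⟨R, ?_, ?_⟩
  · intro c hc
    obtain ⟨q, hq, m, hm, hmq⟩ := hg.meetC (fun q : M => ∃ m : M, E m K ∧
      E (opair (opair c m) (sing emp)) q) inferInstance (by
        intro p hp
        have hp' : E p (cohP K θ) := hp
        obtain ⟨m, hm, hfr⟩ := exists_fresh hf hK hKf ((mem_cohP.1 hp').2.1)
        refine ⟨ins (opair (opair c m) (sing emp)) p,
          ins_mem_cohP hf hp' hc hm one_mem_two (hfr c), ?_, m, hm, ?_⟩
        · intro z hz
          rw [mem_ins]
          exact Or.inl hz
        · rw [mem_ins]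
          exact Or.inr rfl)
    exact ⟨m, hm, (hR c m hc hm).2 ⟨q, hq, hmq⟩⟩
  · intro c c' hc hc' hne
    obtain ⟨q, hq, m, hm, hmq, hmq'⟩ := hg.meetC (fun q : M => ∃ m : M, E m K ∧
      E (opair (opair c m) (sing emp)) q ∧ E (opair (opair c' m) emp) q) inferInstance (by
        intro p hp
        have hp' : E p (cohP K θ) := hp
        obtain ⟨m, hm, hfr⟩ := exists_fresh hf hK hKf ((mem_cohP.1 hp').2.1)
        have h1 := ins_mem_cohP hf hp' hc hm one_mem_two (hfr c)
        have h2 : ∀ j, ¬ E (opair (opair c' m) j) (ins (opair (opair c m) (sing emp)) p) := by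
          intro j hj
          rw [mem_ins] at hj
          rcases hj with hj | hj
          · exact hfr _ _ hj
          · simp only [opair_inj] at hj
            exact hne hj.1.1.symm
        refine ⟨ins (opair (opair c' m) emp) (ins (opair (opair c m) (sing emp)) p),
          ins_mem_cohP hf h1 hc' hm emp_mem_two h2, ?_, m, hm, ?_, ?_⟩
        · intro z hz
          rw [mem_ins, mem_ins]
          exact Or.inl (Or.inl hz)
        · rw [mem_ins, mem_ins]
          exact Or.inl (Or.inr rfl)
        · rw [mem_ins]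
          exact Or.inr rfl)
    refine ⟨m, hm, fun h => ?_⟩
    obtain ⟨q', hq', h'⟩ := (hR c' m hc' hm).1 (h.1 ((hR c m hc hm).2 ⟨q, hq, hmq⟩))
    obtain ⟨r, hr, hrq, hrq'⟩ := hG.dir q q' hq hq'
    have hr' : E r (cohP K θ) := hG.sub r hr
    have h3 := (mem_cohP.1 hr').2.2 (opair c' m) (sing emp) emp (hrq' _ h') (hrq _ hmq')
    exact one_ne_emp h3

end SW
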