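import Pool.Agent.H35.SW.CDefs

/-!
INJE: a good family gives distinct subsets of `K` in the Cohen extension.
-/

set_option linter.unusedVariables false
set_option synthInstance.maxSize 100000

namespace SW

theorem tripleIn_iff {M : Type} [SetStr M] [ZF M] {x m c R : M} :
    TripleIn x m c R ↔ E (opair (opair x m) c) R := by
  unfold TripleIn
  constructor
  · rintro ⟨y, hy, h⟩
    rw [isOP_iff] at hy
    subst hy
    exact pairIn_iff.1 h
  · intro h
    exact ⟨_, isOP_iff.2 rfl, pairIn_iff.2 h⟩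

/-- the combinatorial core, inside a model of ZF -/
theorem inje_core {N : Type} [SetStr N] [ZF N] {K k θ S Q R : N} (hK : HFFacts K)
    (hS1 : ∀ b m c, E b k → E m K → TripleIn b m c S → E c θ)
    (hS2 : ∀ b m c c', E b k → E m K → TripleIn b m c S → TripleIn b m c' S → c = c')
    (hQ1 : ∀ b, E b k → ∃ c, E c θ ∧ E (opair b c) Q)
    (hQ2 : ∀ b c c', E b k → E (opair b c) Q → E (opair b c') Q → c = c')
    (hQ3 : ∀ b b' c, E b k → E b' k →
      (∀ m d, E m K → (TripleIn b m d S ↔ TripleIn b' m d S)) →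
      E (opair b c) Q → E (opair b' c) Q → b = b')
    (hR1 : ∀ c, E c θ → ∃ m, E m K ∧ E (opair c m) R)
    (hR2 : ∀ c c', E c θ → E c' θ → c ≠ c' → ∃ m, E m K ∧
      ¬ (E (opair c m) R ↔ E (opair c' m) R)) : Inj K k := by
  obtain ⟨F, hF⟩ : ∃ F : N, ∀ b x : N, E b k → E x K → (E (opair b x) F ↔
      ((∃ m n c : N, x = opair emp (opair m n) ∧ E (opair (opair b m) c) S ∧ E (opair c n) R) ∨
       (∃ n c : N, x = opair (sing emp) n ∧ E (opair b c) Q ∧ E (opair c n) R))) := by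
    refine ⟨sep (prod k K) (fun z => ∃ b x : N, z = opair b x ∧
      ((∃ m n c : N, x = opair emp (opair m n) ∧ E (opair (opair b m) c) S ∧ E (opair c n) R) ∨
       (∃ n c : N, x = opair (sing emp) n ∧ E (opair b c) Q ∧ E (opair c n) R))),
      fun b x hb hx => ?_⟩
    rw [mem_sep' inferInstance, mem_prod]
    constructor
    · rintro ⟨-, b', x', h, h'⟩
      rw [opair_inj] at h
      obtain ⟨rfl, rfl⟩ := h
      exact h'
    · intro h
      exact ⟨⟨hb, hx⟩, b, x, rfl, h⟩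
  have h1K : E (sing (emp : N)) K := hK.sing hK.emp
  have hne : (emp : N) ≠ sing emp := by
    intro h
    have : E (emp : N) (sing emp) := by simp
    rw [← h] at this
    exact not_mem_emp _ this
  have hF0 : ∀ b m n : N, E b k → E m K → E n K → (E (opair b (opair emp (opair m n))) F ↔
      ∃ c, E (opair (opair b m) c) S ∧ E (opair c n) R) := by
    intro b m n hb hm hn
    rw [hF b _ hb (hK.opair.2 ⟨hK.emp, hK.opair.2 ⟨hm, hn⟩⟩)]
    constructor
    · rintro (⟨m', n', c, h, h1, h2⟩ | ⟨n', c, h, h1, h2⟩)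
      · rw [opair_inj, opair_inj] at h
        obtain ⟨-, rfl, rfl⟩ := h
        exact ⟨c, h1, h2⟩
      · rw [opair_inj] at h
        exact absurd h.1 hne
    · rintro ⟨c, h1, h2⟩
      exact Or.inl ⟨m, n, c, rfl, h1, h2⟩
  have hF1 : ∀ b n : N, E b k → E n K → (E (opair b (opair (sing emp) n)) F ↔
      ∃ c, E (opair b c) Q ∧ E (opair c n) R) := by
    intro b n hb hn
    rw [hF b _ hb (hK.opair.2 ⟨h1K, hn⟩)]
    constructor
    · rintro (⟨m', n', c, h, h1, h2⟩ | ⟨n', c, h, h1, h2⟩)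
      · rw [opair_inj] at h
        exact absurd h.1.symm hne
      · rw [opair_inj] at h
        obtain ⟨-, rfl⟩ := h
        exact ⟨c, h1, h2⟩
    · rintro ⟨c, h1, h2⟩
      exact Or.inr ⟨n, c, rfl, h1, h2⟩
  refine ⟨F, fun a b ha hb hab => ?_⟩
  simp only [pairIn_iff]
  by_contra hcon
  push Not at hcon
  -- all sections agree
  obtain ⟨c, hc, hca⟩ := hQ1 a ha
  obtain ⟨c', hc', hcb⟩ := hQ1 b hb
  have hcc : c = c' := by
    by_contra hne'
    obtain ⟨n, hn, h⟩ := hR2 c c' hc hc' hne'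
    apply h
    have e := hcon _ (hK.opair.2 ⟨h1K, hn⟩)
    rw [hF1 a n ha hn, hF1 b n hb hn] at e
    constructor
    · intro h1
      obtain ⟨d, hd, hd'⟩ := e.1 ⟨c, hca, h1⟩
      rwa [hQ2 b d c' hb hd hcb] at hd'
    · intro h1
      obtain ⟨d, hd, hd'⟩ := e.2 ⟨c', hcb, h1⟩
      rwa [hQ2 a d c ha hd hca] at hd'
  subst hcc
  have key : ∀ a b : N, E a k → E b k → (∀ m, E m K → (E (opair a m) F ↔ E (opair b m) F)) →
      ∀ m d, E m K → TripleIn a m d S → TripleIn b m d S := by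
    intro a b ha hb hcon m d hm h
    have hd : E d θ := hS1 a m d ha hm h
    obtain ⟨n, hn, hdn⟩ := hR1 d hd
    have e := hcon _ (hK.opair.2 ⟨hK.emp, hK.opair.2 ⟨hm, hn⟩⟩)
    rw [hF0 a m n ha hm hn, hF0 b m n hb hm hn] at e
    obtain ⟨d', h', hdn'⟩ := e.1 ⟨d, tripleIn_iff.1 h, hdn⟩
    have hd' : E d' θ := hS1 b m d' hb hm (tripleIn_iff.2 h')
    have hdd : d = d' := by
      by_contra hne'
      obtain ⟨n2, hn2, hx⟩ := hR2 d d' hd hd' hne'
      apply hx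
      have e := hcon _ (hK.opair.2 ⟨hK.emp, hK.opair.2 ⟨hm, hn2⟩⟩)
      rw [hF0 a m n2 ha hm hn2, hF0 b m n2 hb hm hn2] at e
      constructor
      · intro h1
        obtain ⟨x, hx1, hx2⟩ := e.1 ⟨d, tripleIn_iff.1 h, h1⟩
        rwa [hS2 b m x d' hb hm (tripleIn_iff.2 hx1) (tripleIn_iff.2 h')] at hx2
      · intro h1
        obtain ⟨x, hx1, hx2⟩ := e.2 ⟨d', h', h1⟩
        rwa [hS2 a m x d ha hm (tripleIn_iff.2 hx1) h] at hx2
    subst hdd
    exact tripleIn_iff.2 h'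
  refine hab (hQ3 a b c ha hb (fun m d hm => ⟨key a b ha hb hcon m d hm,
    key b a hb ha (fun m hm => (hcon m hm).symm) m d hm⟩) hca hcb)

/-- INJE -/
theorem inje (hemb : EMBStmt) (hhf : HFStmt) (htra : TRAStmt) (hrea : REAStmt)
    (hpos : POSStmt) : INJEStmt := by
  intro M _ _ hf K θ hK hθ G hG _ k hk hgood
  have he := hemb M (Coh hf K θ) G hG
  have ht := htra M (Coh hf K θ) G hG
  obtain ⟨S, hS⟩ := hgood
  obtain ⟨Q, hQ1, hQ2, hQ3⟩ := hpos M K k θ S hK hk hθ hS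
  obtain ⟨R, hR1, hR2⟩ := hrea M hf K θ hK G hG
  obtain ⟨hS1, hS2, -⟩ := hS
  have hK' := hhf (Ext (Coh hf K θ) G) (emb _ G K) (ht.hf K hK)
  have pair_out : ∀ (a y : Ext (Coh hf K θ) G) (X : M), E (opair a y) (emb _ G X) →
      ∃ a' y', a = emb _ G a' ∧ y = emb _ G y' ∧ E (opair a' y') X := by
    intro a y X h
    have htr : ∀ z w : Ext (Coh hf K θ) G, E z w → (∃ x, w = emb _ G x) → ∃ x, z = emb _ G x := by
      rintro z w hzw ⟨x, rfl⟩
      obtain ⟨x', -, hx'⟩ := he.trans _ _ hzw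
      exact ⟨x', hx'⟩
    obtain ⟨z, hz, hz'⟩ := he.trans _ _ h
    have h1 : ∃ x, upair a y = emb (Coh hf K θ) G x :=
      htr _ (opair a y) (by unfold opair; rw [mem_upair]; exact Or.inr rfl) ⟨z, hz'⟩
    obtain ⟨a', ha'⟩ := htr a _ (by rw [mem_upair]; exact Or.inl rfl) h1
    obtain ⟨y', hy'⟩ := htr y _ (by rw [mem_upair]; exact Or.inr rfl) h1
    refine ⟨a', y', ha', hy', ?_⟩
    rw [ha', hy', ← ht.opair, he.mem] at h
    exact h
  have e3 : ∀ a b c X : M, TripleIn (emb (Coh hf K θ) G a) (emb _ G b) (emb _ G c) (emb _ G X) ↔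
      TripleIn a b c X := ht.tripleIn
  have e2 : ∀ a b X : M, E (opair (emb (Coh hf K θ) G a) (emb _ G b)) (emb _ G X) ↔
      E (opair a b) X := fun a b X => by rw [← ht.opair, he.mem]
  refine inje_core (K := emb (Coh hf K θ) G K) (k := emb _ G k) (θ := emb _ G θ)
    (S := emb _ G S) (Q := emb _ G Q) (R := R) hK' ?_ ?_ ?_ ?_ ?_ ?_ ?_
  · intro b m c hb hm h
    obtain ⟨b, hb0, rfl⟩ := he.trans _ _ hb
    obtain ⟨m, hm0, rfl⟩ := he.trans _ _ hm
    obtain ⟨x, c', -, rfl, -⟩ := pair_out _ _ _ (tripleIn_iff.1 h)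
    rw [e3] at h
    exact (he.mem _ _).2 (hS1 b m c' hb0 hm0 h)
  · intro b m c c' hb hm h h'
    obtain ⟨b, hb0, rfl⟩ := he.trans _ _ hb
    obtain ⟨m, hm0, rfl⟩ := he.trans _ _ hm
    obtain ⟨x, c, -, rfl, -⟩ := pair_out _ _ _ (tripleIn_iff.1 h)
    obtain ⟨x', c', -, rfl, -⟩ := pair_out _ _ _ (tripleIn_iff.1 h')
    rw [e3] at h h'
    rw [hS2 b m c c' hb0 hm0 h h']
  · intro b hb
    obtain ⟨b, hb0, rfl⟩ := he.trans _ _ hb
    obtain ⟨c, hc, h⟩ := hQ1 b hb0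
    exact ⟨emb _ G c, (he.mem _ _).2 hc, (e2 _ _ _).2 h⟩
  · intro b c c' hb h h'
    obtain ⟨b, hb0, rfl⟩ := he.trans _ _ hb
    obtain ⟨x, c, -, rfl, -⟩ := pair_out _ _ _ h
    obtain ⟨x', c', -, rfl, -⟩ := pair_out _ _ _ h'
    rw [hQ2 b c c' hb0 ((e2 _ _ _).1 h) ((e2 _ _ _).1 h')]
  · intro b b' c hb hb' hs h h'
    obtain ⟨b, hb0, rfl⟩ := he.trans _ _ hb
    obtain ⟨b', hb0', rfl⟩ := he.trans _ _ hb'
    obtain ⟨x, c, -, rfl, -⟩ := pair_out _ _ _ h
    rw [hQ3 b b' c hb0 hb0' (fun m d hm => ?_) ((e2 _ _ _).1 h) ((e2 _ _ _).1 h')]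
    have := hs (emb _ G m) (emb _ G d) ((he.mem _ _).2 hm)
    rw [e3, e3] at this
    exact this
  · intro c hc
    obtain ⟨c, hc0, rfl⟩ := he.trans _ _ hc
    obtain ⟨m, hm, h⟩ := hR1 c hc0
    exact ⟨emb _ G m, (he.mem _ _).2 hm, h⟩
  · intro c c' hc hc' hne
    obtain ⟨c, hc0, rfl⟩ := he.trans _ _ hc
    obtain ⟨c', hc0', rfl⟩ := he.trans _ _ hc'
    obtain ⟨m, hm, h⟩ := hR2 c c' hc0 hc0' (fun h => hne (by rw [h]))
    exact ⟨emb _ G m, (he.mem _ _).2 hm, h⟩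

end SW
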